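import Pool.Agent.helper96.LK.SpecH

/-!
# Project lk: module NS (helper91)
-/

set_option autoImplicit false

namespace Pool.Agent.LK

open Finset Filter Polynomial

theorem NS_lat {a : ℤ} (ha : 2 ≤ a) (P P' : Pt) (m n : ℤ) (hm : mu a P' - mu a P = m)
    (hn : nu a P' - nu a P = n) : P' = shift a P (m, n) := by
  obtain ⟨h1, h2⟩ := pt_eq ha P
  obtain ⟨h3, h4⟩ := pt_eq ha P'
  have e1 : ((P'.1 : ℤ) : ℚ) = ((P.1 + m * a + n : ℤ) : ℚ) := by
    push_cast
    rw [← hm, ← hn]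
    linear_combination h3 - h1
  have e2 : ((P'.2 : ℤ) : ℚ) = ((P.2 + m + n * a : ℤ) : ℚ) := by
    push_cast
    rw [← hm, ← hn]
    linear_combination h4 - h2
  have f1 : P'.1 = P.1 + m * a + n := by exact_mod_cast e1
  have f2 : P'.2 = P.2 + m + n * a := by exact_mod_cast e2
  exact Prod.ext f1 f2

theorem NS_reg {a dl : ℤ} (ha : 11 ≤ a) (h0 : 0 ≤ dl) (h1 : dl ≤ 1) {P : Pt} (hP : P ∈ BB a dl) :
    Reg a P := by
  rw [mem_BB ha h0 h1] at hP
  simp only [isB, isS, isT, isU, isW, isV, isQ] at hP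
  unfold Reg
  omega

theorem NS_E {a dl : ℤ} (ha : 11 ≤ a) (h0 : 0 ≤ dl) (h1 : dl ≤ 1) (hBU : BU_stmt) (c : ℤ)
    (hc : a = 3 * c + 2) {P : Pt} (hP : P ∈ BB a dl) (m n : ℤ)
    (hm : mu a P = 2 / 3 + m) (hn : nu a P = 2 / 3 + n) : False := by
  have hEm : mu a ((2 * c + 3, 2 * c + 3) : Pt) = 2 / 3 := by
    have hd := den_ne (a := a) (by omega)
    rw [mu, div_eq_iff hd, hc]
    push_cast
    ring
  have hEn : nu a ((2 * c + 3, 2 * c + 3) : Pt) = 2 / 3 := by
    have hd := den_ne (a := a) (by omega)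
    rw [nu, div_eq_iff hd, hc]
    push_cast
    ring
  have h2 := NS_lat (a := a) (by omega) ((2 * c + 3, 2 * c + 3) : Pt) P m n
    (by rw [hm, hEm]; ring) (by rw [hn, hEn]; ring)
  have hRE : Reg a ((2 * c + 3, 2 * c + 3) : Pt) := by
    unfold Reg
    left
    simp only
    omega
  have h3 := hBU a ha _ P (m, n) hRE (NS_reg ha h0 h1 hP) h2
  have h4 : P = (2 * c + 3, 2 * c + 3) := by
    rw [h2, h3]
    exact shift_zero a _
  rw [mem_BB ha h0 h1, h4] at hP
  simp only [isB, isS, isT, isU, isW, isV, isQ, true_and] at hP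
  omega

theorem NS (hBU : BU_stmt) (hNI : NI_stmt) : NS_stmt := by
  intro a dl ha h0 h1 P hP P' hP' o o' hSim
  have ha2 : (2 : ℤ) ≤ a := by omega
  have hR := NS_reg ha h0 h1 hP
  have hR' := NS_reg ha h0 h1 hP'
  rw [xx_shift ha2, yy_shift ha2, xx_shift ha2, yy_shift ha2] at hSim
  simp only [xx, yy] at hSim
  set μ := mu a P with hμ
  set ν := nu a P with hν
  set μ' := mu a P' with hμ'
  set ν' := nu a P' with hν'
  obtain ⟨⟨z, hz⟩, w, hw⟩ | ⟨⟨z, hz⟩, w, hw⟩ := hSim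
  · -- first alternative
    have e1 : μ' - μ = ((2 * z + (o.1 - o'.1) : ℤ) : ℚ) := by
      push_cast
      linear_combination 2 * hz
    have e2 : ν' - ν = ((w + (o.2 - o'.2) : ℤ) : ℚ) := by
      push_cast
      linear_combination hw
    have h2 := NS_lat ha2 P P' _ _ e1 e2
    have h3 := hBU a ha P P' _ hR hR' h2
    have h4 : P' = P := by
      rw [h2, h3]
      exact shift_zero a _
    have h5 : 2 * z + (o.1 - o'.1) = 0 := congrArg Prod.fst h3
    exact ⟨h4.symm, by omega⟩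
  · -- second alternative
    obtain ⟨p1, p2⟩ := pt_eq ha2 P
    obtain ⟨q1, q2⟩ := pt_eq ha2 P'
    rw [← hμ, ← hν] at p1 p2
    rw [← hμ', ← hν'] at q1 q2
    -- 2 N' = M + 2 z, M' = 2 N + 2 w with M = μ + o.1 etc.
    have r1 : 2 * (ν' + o'.2) = μ + o.1 + 2 * z := by linear_combination 2 * hz
    have r2 : μ' + o'.1 = 2 * (ν + o.2) + 2 * w := by linear_combination 2 * hw
    -- 3 μ is an integer
    obtain ⟨m, hm⟩ : ∃ m : ℤ, 3 * μ = m := by
      refine ⟨4 * (P.2 - 1) - (2 * (P'.1 - 1) + 2 * (a * o'.1 + o'.2) - 2 * a * (2 * o.2 + 2 * w) -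
        o.1 - 2 * z), ?_⟩
      push_cast
      linear_combination -4 * p2 + 2 * q1 + (2 * (a : ℚ)) * r2 + r1
    obtain ⟨n, hn⟩ : ∃ n : ℤ, 3 * ν = n := by
      refine ⟨3 * (P.1 - 1) - a * m, ?_⟩
      push_cast
      rw [← hm]
      linear_combination -3 * p1
    -- 3 does not divide m
    have hm3 : ¬ (3 : ℤ) ∣ m := by
      rintro ⟨k, hk⟩
      have hμk : μ = k := by
        have : (3 : ℚ) * μ = 3 * k := by rw [hm, hk]; push_cast; ring
        linarith
      obtain ⟨b, hb⟩ : ∃ b : ℤ, k + b = 2 * ((k + b) / 2) := by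
        rcases Int.even_or_odd k with h | h
        · exact ⟨0, by obtain ⟨t, ht⟩ := h; omega⟩
        · exact ⟨1, by obtain ⟨t, ht⟩ := h; omega⟩
      refine (hNI a dl ha h0 h1 P hP (b, 0) (1 - (k + b) / 2)).1 ?_
      rw [xx_shift ha2, xx, ← hμ, hμk]
      have hb' : ((k : ℚ) + b) = 2 * (((k + b) / 2 : ℤ) : ℚ) := by exact_mod_cast hb
      push_cast
      linear_combination (-1 / 2 : ℚ) * hb'
    have i1 : 3 * (P.1 - 1) = a * m + n := by
      have : ((3 * (P.1 - 1) : ℤ) : ℚ) = ((a * m + n : ℤ) : ℚ) := by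
        push_cast
        rw [← hm, ← hn]
        linear_combination 3 * p1
      exact_mod_cast this
    have i2 : 3 * (P.2 - 1) = m + a * n := by
      have : ((3 * (P.2 - 1) : ℤ) : ℚ) = ((m + a * n : ℤ) : ℚ) := by
        push_cast
        rw [← hm, ← hn]
        linear_combination 3 * p2
      exact_mod_cast this
    -- residues
    obtain ⟨c, hc | hc | hc⟩ : ∃ c : ℤ, a = 3 * c ∨ a = 3 * c + 1 ∨ a = 3 * c + 2 :=
      ⟨a / 3, by omega⟩
    · exfalso
      apply hm3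
      refine ⟨(P.2 - 1) - c * n, ?_⟩
      rw [hc] at i2
      linear_combination -i2
    · -- a = 3 c + 1 : n = - m mod 3
      obtain ⟨s, hs⟩ : ∃ s : ℤ, n = 3 * s - m := ⟨(P.1 - 1) - c * m, by
        rw [hc] at i1; linear_combination -i1⟩
      have e1 : μ' - μ = ((2 * s - m + (2 * o.2 + 2 * w) - o'.1 : ℤ) : ℚ) := by
        have hs' : (n : ℚ) = 3 * s - m := by exact_mod_cast hs
        push_cast
        linear_combination r2 + (2 / 3 : ℚ) * hn - (1 / 3 : ℚ) * hm + (2 / 3 : ℚ) * hs'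
      have e2 : ∃ k : ℤ, ν' - ν = k := by
        -- ν' = (P'.1 - 1) - a μ', μ' = μ + integer
        refine ⟨(P'.1 - 1) - a * (2 * s - m + (2 * o.2 + 2 * w) - o'.1) - (P.1 - 1), ?_⟩
        push_cast
        push_cast at e1
        linear_combination -q1 + p1 - (a : ℚ) * e1
      obtain ⟨k, hk⟩ := e2
      have h2 := NS_lat ha2 P P' _ _ e1 hk
      have h3 := hBU a ha P P' _ hR hR' h2
      have h4 : P' = P := by
        rw [h2, h3]
        exact shift_zero a _
      have hμμ : μ' = μ := by rw [hμ', hμ, h4]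
      have hνν : ν' = ν := by rw [hν', hν, h4]
      refine ⟨h4.symm, ⟨o'.2 - o.2 - z - w, ?_⟩⟩
      have : ((o.1 - o'.1 : ℤ) : ℚ) = ((2 * (o'.2 - o.2 - z - w) : ℤ) : ℚ) := by
        push_cast
        linear_combination (-1 : ℚ) * r1 - r2 + hμμ + 2 * hνν
      exact_mod_cast this
    · -- a = 3 c + 2 : n = m mod 3
      obtain ⟨s, hs⟩ : ∃ s : ℤ, n = 3 * s + m := ⟨(P.1 - 1) - c * m - m, by
        rw [hc] at i1; linear_combination -i1⟩
      have hs' : (n : ℚ) = 3 * s + m := by exact_mod_cast hs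
      exfalso
      obtain ⟨t, ht | ht⟩ : ∃ t : ℤ, m = 3 * t + 1 ∨ m = 3 * t + 2 := ⟨m / 3, by omega⟩
      · -- the class of P' is (2/3, 2/3)
        have ht' : (m : ℚ) = 3 * t + 1 := by exact_mod_cast ht
        have f1 : μ' = 2 / 3 + ((2 * s + 2 * t + (2 * o.2 + 2 * w) - o'.1 : ℤ) : ℚ) := by
          push_cast
          linear_combination r2 + (2 / 3 : ℚ) * hn + (2 / 3 : ℚ) * hs' + (2 / 3 : ℚ) * ht'
        have f2 : ν' = 2 / 3 + (((P'.1 - 1) - a * (2 * s + 2 * t + (2 * o.2 + 2 * w) - o'.1) -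
            2 * c - 2 : ℤ) : ℚ) := by
          have hc' : (a : ℚ) = 3 * c + 2 := by exact_mod_cast hc
          push_cast
          push_cast at f1
          linear_combination -q1 - (a : ℚ) * f1 - (2 / 3 : ℚ) * hc'
        exact NS_E ha h0 h1 hBU c hc hP' _ _ f1 f2
      · have ht' : (m : ℚ) = 3 * t + 2 := by exact_mod_cast ht
        have f1 : μ = 2 / 3 + ((t : ℤ) : ℚ) := by
          linear_combination (1 / 3 : ℚ) * hm + (1 / 3 : ℚ) * ht'
        have f2 : ν = 2 / 3 + ((s + t : ℤ) : ℚ) := by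
          push_cast
          linear_combination (1 / 3 : ℚ) * hn + (1 / 3 : ℚ) * hs' + (1 / 3 : ℚ) * ht'
        exact NS_E ha h0 h1 hBU c hc hP _ _ f1 f2

end Pool.Agent.LK
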